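import Pool.Agent.helper53.AU.SpecG3

/-!
# Project au, module B3
-/

namespace Pool.Agent.helper53.AU

open scoped Classical

/-- a central normal Hall subgroup `O` of its centraliser is a direct factor: the complement -/
theorem B3_compl {L : Type} [Group L] [Finite L] (O : Subgroup L)
    (hcomm : ∀ a ∈ O, ∀ b ∈ O, a * b = b * a)
    (hcop : Nat.Coprime (Nat.card O) O.index) :
    ∃ M : Subgroup L, (∀ x ∈ M, ∀ a ∈ O, x * a = a * x) ∧ (∀ x ∈ M, x ∈ O → x = 1) ∧
      (∀ n : ℕ, Nat.Coprime n (Nat.card O) → ∀ x : L, (∀ a ∈ O, x * a = a * x) → x ^ n = 1 → x ∈ M) ∧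
      (∀ g : L, (∀ a ∈ O, g * a * g⁻¹ ∈ O) → ∀ x ∈ M, g * x * g⁻¹ ∈ M) ∧
      Nat.Coprime (Nat.card M) (Nat.card O) := by
  set C := Subgroup.centralizer (O : Set L) with hC
  have hmemC : ∀ x : L, x ∈ C ↔ ∀ a ∈ O, x * a = a * x := by
    intro x
    rw [hC, Subgroup.mem_centralizer_iff]
    exact ⟨fun h a ha => (h a ha).symm, fun h a ha => (h a ha).symm⟩
  have hOC : O ≤ C := fun a ha => (hmemC a).2 (hcomm a ha)
  have hnorm : (O.subgroupOf C).Normal := by
    constructor
    intro a ha g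
    rw [Subgroup.mem_subgroupOf] at ha ⊢
    have h1 := (hmemC g).1 g.2 a ha
    have h2 : ((g * a * g⁻¹ : C) : L) = (a : L) := by
      push_cast
      rw [h1]; group
    rw [h2]; exact ha
  have hcardO : Nat.card (O.subgroupOf C) = Nat.card O :=
    Nat.card_congr (Subgroup.subgroupOfEquivOfLe hOC).toEquiv
  have hcop' : Nat.Coprime (Nat.card (O.subgroupOf C)) (O.subgroupOf C).index := by
    rw [hcardO]
    refine Nat.Coprime.coprime_dvd_right ?_ hcop
    exact Subgroup.relIndex_dvd_index_of_le hOC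
  obtain ⟨H, hH⟩ := Subgroup.exists_right_complement'_of_coprime hcop'
  have hcardH : Nat.card H = (O.subgroupOf C).index := by
    have := hH.card_mul_card
    have h2 := (O.subgroupOf C).card_mul_index
    have hpos : 0 < Nat.card (O.subgroupOf C) := Nat.card_pos
    exact Nat.eq_of_mul_eq_mul_left hpos (this.trans h2.symm)
  have hcopH : Nat.Coprime (Nat.card H) (Nat.card O) := by
    rw [hcardH, ← hcardO]; exact hcop'.symm
  have hdisj : ∀ y : C, y ∈ H → (y : L) ∈ O → y = 1 := by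
    intro y hy hyO
    have := hH.disjoint
    rw [Subgroup.disjoint_def] at this
    exact this (Subgroup.mem_subgroupOf.2 hyO) hy
  have key : ∀ n : ℕ, Nat.Coprime n (Nat.card O) → ∀ x : C, x ^ n = 1 → x ∈ H := by
    intro n hn x hx
    obtain ⟨⟨a, h⟩, hah⟩ := hH.2 x
    simp only at hah
    have hcm : Commute (a : C) (h : C) := by
      have h1 := (hmemC (h : C)).1 (h : C).2 ((a : C) : L) (Subgroup.mem_subgroupOf.1 a.2)
      exact Subtype.ext h1.symm
    have h3 : (a : C) ^ n * (h : C) ^ n = 1 := by rw [← hcm.mul_pow, hah, hx]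
    have h4 : (a : C) ^ n = 1 := by
      have h5 : ((h : C) ^ n) ∈ H := H.pow_mem h.2 n
      have h6 : (h : C) ^ n = ((a : C) ^ n)⁻¹ := (eq_inv_of_mul_eq_one_right h3)
      have h7 : (((h : C) ^ n : C) : L) ∈ O := by
        rw [h6]
        exact Subgroup.mem_subgroupOf.1 ((O.subgroupOf C).inv_mem ((O.subgroupOf C).pow_mem a.2 n))
      have h8 := hdisj _ h5 h7
      rw [h8, mul_one] at h3
      exact h3
    have h9 : (a : C) = 1 := by
      have h10 : (a : C) ^ (Nat.card O) = 1 := by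
        rw [← hcardO]
        exact congrArg Subtype.val (pow_card_eq_one' (x := a))
      have h11 : orderOf (a : C) ∣ Nat.gcd n (Nat.card O) :=
        Nat.dvd_gcd (orderOf_dvd_of_pow_eq_one h4) (orderOf_dvd_of_pow_eq_one h10)
      rw [hn] at h11
      exact orderOf_eq_one_iff.1 (Nat.dvd_one.1 h11)
    rw [h9, one_mul] at hah
    rw [← hah]; exact h.2
  refine ⟨H.map C.subtype, ?_, ?_, ?_, ?_, ?_⟩
  · rintro _ ⟨y, _, rfl⟩
    exact (hmemC _).1 y.2
  · rintro _ ⟨y, hy, rfl⟩ hyO
    rw [hdisj y hy hyO]; rfl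
  · intro n hn x hx hxn
    exact ⟨⟨x, (hmemC x).2 hx⟩, key n hn _ (Subtype.ext (by simpa using hxn)), rfl⟩
  · rintro g hg _ ⟨y, hy, rfl⟩
    have hgC : g * (y : L) * g⁻¹ ∈ C := by
      have hinj : Function.Injective (fun a : O => (⟨g * a * g⁻¹, hg a a.2⟩ : O)) := by
        intro a b hab
        have := congrArg Subtype.val hab
        simpa using this
      have hsurj := Finite.surjective_of_injective hinj
      rw [hmemC]
      intro a ha
      obtain ⟨b, hb⟩ := hsurj ⟨a, ha⟩
      have hb' : g * b * g⁻¹ = a := congrArg Subtype.val hb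
      have h1 := (hmemC y).1 y.2 b b.2
      rw [← hb']
      calc g * (y : L) * g⁻¹ * (g * b * g⁻¹) = g * (y * b) * g⁻¹ := by group
        _ = g * (b * y) * g⁻¹ := by rw [h1]
        _ = _ := by group
    have h12 : (⟨g * (y : L) * g⁻¹, hgC⟩ : C) ∈ H := by
      apply key (Nat.card H) hcopH
      apply Subtype.ext
      have h13 : (y : C) ^ (Nat.card H) = 1 := by
        exact congrArg Subtype.val (pow_card_eq_one' (x := (⟨y, hy⟩ : H)))
      have h14 : ((y : C) : L) ^ (Nat.card H) = 1 := by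
        have := congrArg Subtype.val h13
        simpa using this
      show (g * (y : L) * g⁻¹) ^ (Nat.card H) = 1
      rw [conj_pow, h14]; group
    exact ⟨_, h12, rfl⟩
  · rw [Subgroup.card_map_of_injective C.subtype_injective]
    exact hcopH

theorem B3_norm {L : Type} [Group L] [Finite L] (O : Subgroup L) (g : L)
    (h : ∀ a ∈ O, g * a * g⁻¹ ∈ O) :
    g ∈ Subgroup.normalizer (O : Set L) ∧ ∀ a ∈ O, g⁻¹ * a * g ∈ O := by
  have hinj : Function.Injective (fun a : O => (⟨g * a * g⁻¹, h a a.2⟩ : O)) := by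
    intro a b hab
    have := congrArg Subtype.val hab
    simpa using this
  have hsurj := Finite.surjective_of_injective hinj
  have h2 : ∀ a ∈ O, g⁻¹ * a * g ∈ O := by
    intro a ha
    obtain ⟨b, hb⟩ := hsurj ⟨a, ha⟩
    have hb' : g * b * g⁻¹ = a := congrArg Subtype.val hb
    rw [← hb']
    have : g⁻¹ * (g * (b : L) * g⁻¹) * g = b := by group
    rw [this]; exact b.2
  refine ⟨?_, h2⟩
  rw [Subgroup.mem_normalizer_iff]
  intro a
  refine ⟨h a, fun ha => ?_⟩
  have := h2 _ ha
  have h3 : g⁻¹ * (g * a * g⁻¹) * g = a := by group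
  rwa [h3] at this

theorem B3_min {L : Type} [Group L] [Finite L] (N M : Subgroup L) (hM : M ≠ ⊥)
    (hMN : ∀ g ∈ N, ∀ x ∈ M, g * x * g⁻¹ ∈ M) :
    ∃ E : Subgroup L, E ≤ M ∧ E ≠ ⊥ ∧ (∀ g ∈ N, ∀ x ∈ E, g * x * g⁻¹ ∈ E) ∧
      ∀ K : Subgroup L, K ≤ E → (∀ g ∈ N, ∀ x ∈ K, g * x * g⁻¹ ∈ K) → K = ⊥ ∨ K = E := by
  have hex : ∃ n : ℕ, ∃ E : Subgroup L, E ≤ M ∧ E ≠ ⊥ ∧ (∀ g ∈ N, ∀ x ∈ E, g * x * g⁻¹ ∈ E) ∧
      Nat.card E = n := ⟨_, M, le_refl _, hM, hMN, rfl⟩
  obtain ⟨E, hEM, hE, hEN, hEc⟩ := Nat.find_spec hex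
  refine ⟨E, hEM, hE, hEN, ?_⟩
  intro K hKE hKN
  by_cases hK : K = ⊥
  · exact Or.inl hK
  · right
    have h1 : Nat.find hex ≤ Nat.card K := Nat.find_min' hex ⟨K, hKE.trans hEM, hK, hKN, rfl⟩
    rw [← hEc] at h1
    exact Subgroup.eq_of_le_of_card_ge hKE h1

theorem B3_invert {L : Type} [Group L] [Finite L] (E : Subgroup L) (s : L) (hs : s * s = 1)
    (hE : ∀ x ∈ E, s * x * s⁻¹ ∈ E) (hfix : ∀ x ∈ E, s * x = x * s → x = 1) :
    ∀ x ∈ E, s * x * s⁻¹ = x⁻¹ := by
  let φ : E →* E :=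
    { toFun := fun x => ⟨s * x * s⁻¹, hE x x.2⟩
      map_one' := by
        apply Subtype.ext
        show s * ((1 : E) : L) * s⁻¹ = ((1 : E) : L)
        simp
      map_mul' := fun x y => by
        apply Subtype.ext
        show s * ((x * y : E) : L) * s⁻¹ = (s * x * s⁻¹) * (s * y * s⁻¹)
        push_cast
        group }
  have hφ : MonoidHom.FixedPointFree φ := by
    intro x hx
    have h1 : s * (x : L) * s⁻¹ = x := congrArg Subtype.val hx
    have h2 : s * (x : L) = x * s := by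
      calc s * (x : L) = (s * x * s⁻¹) * s := by group
        _ = x * s := by rw [h1]
    exact Subtype.ext (hfix x x.2 h2)
  have hs' : s⁻¹ = s := inv_eq_of_mul_eq_one_right hs
  have hinv : Function.Involutive φ := by
    intro x
    apply Subtype.ext
    show s * (s * (x : L) * s⁻¹) * s⁻¹ = x
    rw [hs']
    calc s * (s * (x : L) * s) * s = (s * s) * x * (s * s) := by group
      _ = x := by rw [hs]; group
  have h3 := MonoidHom.FixedPointFree.coe_eq_inv_of_involutive hφ hinv
  intro x hx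
  have h4 := congrFun h3 ⟨x, hx⟩
  exact congrArg Subtype.val h4

theorem B3_arith (c j : ℕ) (hc : Odd c) (h3 : 3 ≤ c) (h : 2 * 2 ^ j = 3 ^ c + 1) : False := by
  obtain ⟨k, rfl⟩ := hc
  have h9 : 9 ^ k % 8 = 1 := by
    rw [Nat.pow_mod]; norm_num
  have h10 : 3 ^ (2 * k + 1) = 9 ^ k * 3 := by
    rw [pow_succ, pow_mul]; norm_num
  rw [h10] at h
  have hk : 1 ≤ k := by omega
  have h11 : 9 ≤ 9 ^ k := by
    calc 9 = 9 ^ 1 := by norm_num
      _ ≤ 9 ^ k := Nat.pow_le_pow_right (by norm_num) hk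
  rcases Nat.lt_or_ge j 2 with hj | hj
  · interval_cases j <;> omega
  · obtain ⟨i, rfl⟩ := Nat.exists_eq_add_of_le hj
    have : 2 * 2 ^ (2 + i) = 8 * 2 ^ i := by rw [pow_add]; ring
    omega

theorem B3 (hPLL : PLL_stmt) (hAB : AB_stmt) (hP1 : P1_stmt) (hP5 : P5_stmt) (hMN : MN_stmt)
    (hB1 : B1_stmt) (hM3 : M3_stmt) : B3_stmt := by
  intro L Ω _ _ A t hLL hD hcomm hne hTG
  have hPL := hPLL L Ω A hLL
  have := hLL.finL
  have := hLL.finΩ
  have := hLL.faithful
  have := hLL.trans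
  have := hPL.nonempty
  obtain ⟨⟨τ, hτA, hτ⟩, hconj⟩ := hP1 L Ω A hPL
  obtain ⟨hP5a, hP5b, hP5c⟩ := hP5 L Ω A hPL τ hτA hτ
  obtain ⟨ho, h2, hcard, hodd, ⟨n2, hn2⟩, hcycO, hcycT, -, -, -⟩ := hAB L A hLL.cyc
  have hAcomm : ∀ a ∈ A, ∀ b ∈ A, a * b = b * a := by
    intro a ha b hb
    have := hLL.cyc
    have h0 := isMulCommutative_iff.1 (IsCyclic.isMulCommutative (α := A)) ⟨a, ha⟩ ⟨b, hb⟩
    exact congrArg Subtype.val h0
  obtain ⟨htt, htA, hdih⟩ := hD
  have hOA : ∀ a ∈ oddPart A, a ∈ A := fun a ha => ((ho a).1 ha).1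
  have hTA : ∀ a ∈ twoPart A, a ∈ A := fun a ha => ((h2 a).1 ha).1
  -- orders
  obtain ⟨α⟩ := hPL.nonempty
  have hcardL : Nat.card L = Nat.card (oddPart A) * (2 * Nat.card (twoPart A) *
      Nat.card (MulAction.stabilizer L α)) := by
    have h1 := (MulAction.stabilizer L α).card_mul_index
    rw [MulAction.index_stabilizer_of_transitive, ← hLL.cardA, ← hcard] at h1
    rw [← h1]; ring
  have hst : Nat.Coprime (Nat.card (MulAction.stabilizer L α))
      (2 * (Nat.card (oddPart A) * Nat.card (twoPart A))) := by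
    rw [hcard, hLL.cardA]; exact hLL.copr α
  have hst2 : Nat.Coprime (Nat.card (MulAction.stabilizer L α)) 2 :=
    Nat.Coprime.coprime_dvd_right (Dvd.intro _ rfl) hst
  have hstO : Nat.Coprime (Nat.card (MulAction.stabilizer L α)) (Nat.card (oddPart A)) :=
    Nat.Coprime.coprime_dvd_right ⟨2 * Nat.card (twoPart A), by ring⟩ hst
  have hO2 : Nat.Coprime (Nat.card (oddPart A)) 2 := (Nat.coprime_two_right).2 hodd
  have hOT : Nat.Coprime (Nat.card (oddPart A)) (Nat.card (twoPart A)) := by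
    rw [hn2]; exact Nat.Coprime.pow_right _ hO2
  have hindex : (oddPart A).index = 2 * Nat.card (twoPart A) *
      Nat.card (MulAction.stabilizer L α) := by
    have h1 := (oddPart A).card_mul_index
    rw [hcardL] at h1
    exact Nat.eq_of_mul_eq_mul_left Nat.card_pos h1
  have hcopO : Nat.Coprime (Nat.card (oddPart A)) (oddPart A).index := by
    rw [hindex]
    exact Nat.Coprime.mul_right (Nat.Coprime.mul_right hO2 hOT) hstO.symm
  obtain ⟨M, hM1, hM2, hM3', hM4, hM5⟩ := B3_compl (oddPart A)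
    (fun a ha b hb => hAcomm a (hOA a ha) b (hOA b hb)) hcopO
  -- conjugacy under the normaliser
  have hF2 : ∀ s : L, IsInv s → (∀ a ∈ oddPart A, s * a = a * s) →
      ∃ g : L, (∀ a ∈ oddPart A, g * a * g⁻¹ ∈ oddPart A) ∧
        (∀ a ∈ oddPart A, g⁻¹ * a * g ∈ oddPart A) ∧ g * τ * g⁻¹ = s := by
    intro s hs hsO
    obtain ⟨g, hg⟩ := hconj τ s hτ hs
    have h1 : ∀ a ∈ oddPart A, g⁻¹ * a * g⁻¹⁻¹ ∈ oddPart A := by
      intro a ha
      rw [inv_inv]
      apply hP5c
      · have h3 := hsO a ha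
        have h4 : τ = g⁻¹ * s * g := by rw [← hg]; group
        rw [h4]
        calc g⁻¹ * a * g * (g⁻¹ * s * g) = g⁻¹ * (a * s) * g := by group
          _ = g⁻¹ * (s * a) * g := by rw [h3]
          _ = _ := by group
      · have h5 : a ^ (Nat.card (oddPart A)) = 1 := by
          exact congrArg Subtype.val (pow_card_eq_one' (x := (⟨a, ha⟩ : oddPart A)))
        have h6 := conj_pow (i := Nat.card (oddPart A)) (a := g⁻¹) (b := a)
        rw [inv_inv] at h6
        rw [h6, h5]; group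
    obtain ⟨-, h2'⟩ := B3_norm (oddPart A) g⁻¹ h1
    refine ⟨g, ?_, ?_, hg⟩
    · intro a ha
      have := h2' a ha
      rwa [inv_inv] at this
    · intro a ha
      have := h1 a ha
      rwa [inv_inv] at this
  have hτO : ∀ a ∈ oddPart A, τ * a = a * τ := fun a ha => hAcomm τ hτA a (hOA a ha)
  have hconjN : ∀ s s' : L, IsInv s → IsInv s' → (∀ a ∈ oddPart A, s * a = a * s) →
      (∀ a ∈ oddPart A, s' * a = a * s') →
      ∃ g ∈ Subgroup.normalizer (oddPart A : Set L), g * s * g⁻¹ = s' := by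
    intro s s' hs hs' hsO hs'O
    obtain ⟨g, hg1, hg2, hg⟩ := hF2 s hs hsO
    obtain ⟨g', hg1', hg2', hg'⟩ := hF2 s' hs' hs'O
    refine ⟨g' * g⁻¹, ?_, ?_⟩
    · refine (B3_norm (oddPart A) (g' * g⁻¹) ?_).1
      intro a ha
      have h3 := hg1' _ (hg2 a ha)
      have h4 : g' * g⁻¹ * a * (g' * g⁻¹)⁻¹ = g' * (g⁻¹ * a * g) * g'⁻¹ := by group
      rw [h4]; exact h3
    · rw [← hg, ← hg']; group
  have hNO : ∀ g ∈ Subgroup.normalizer (oddPart A : Set L), ∀ a ∈ oddPart A,
      g * a * g⁻¹ ∈ oddPart A := by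
    intro g hg a ha
    exact (Subgroup.mem_normalizer_iff.1 hg a).1 ha
  -- two-elements
  have hM2el : ∀ x : L, (∀ a ∈ oddPart A, x * a = a * x) → (∃ n : ℕ, x ^ (2 ^ n) = 1) → x ∈ M := by
    rintro x hx ⟨n, hn⟩
    exact hM3' (2 ^ n) (Nat.Coprime.pow_left _ hO2.symm) x hx hn
  have hinvM : ∀ s : L, IsInv s → (∀ a ∈ oddPart A, s * a = a * s) → s ∈ M := by
    intro s hs hsO
    exact hM2el s hsO ⟨1, by rw [pow_one, pow_two]; exact hs.1⟩
  have hMbot : M ≠ ⊥ := by
    intro h
    have := hinvM τ hτ hτO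
    rw [h, Subgroup.mem_bot] at this
    exact hτ.2 this
  obtain ⟨E, hEM, hE, hEN, hEmin⟩ := B3_min (Subgroup.normalizer (oddPart A : Set L)) M hMbot
    (fun g hg x hx => hM4 g (hNO g hg) x hx)
  have hEO : ∀ x ∈ E, ∀ a ∈ oddPart A, x * a = a * x := fun x hx => hM1 x (hEM hx)
  have hMleN : ∀ x : L, (∀ a ∈ oddPart A, x * a = a * x) →
      x ∈ Subgroup.normalizer (oddPart A : Set L) := by
    intro x hx
    refine (B3_norm (oddPart A) x ?_).1
    intro a ha
    rw [hx a ha]
    have : a * x * x⁻¹ = a := by group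
    rw [this]; exact ha
  have htinv : IsInv t := ⟨htt, fun h => htA (h ▸ A.one_mem)⟩
  -- `E` has even order
  have hEeven : Even (Nat.card E) := by
    by_contra hnev
    rw [Nat.not_even_iff_odd] at hnev
    have hfix : ∀ x ∈ E, τ * x = x * τ → x = 1 := by
      intro x hx hxτ
      apply hM2 x (hEM hx)
      apply hP5b x hxτ.symm
      · have h3 : orderOf (⟨x, hx⟩ : E) ∣ Nat.card E := orderOf_dvd_natCard _
        rw [← Subgroup.orderOf_coe] at h3
        exact hnev.of_dvd_nat h3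
      · intro a ha
        exact hEO x hx a ha
    have hinvert : ∀ s : L, IsInv s → (∀ a ∈ oddPart A, s * a = a * s) →
        ∀ x ∈ E, s * x * s⁻¹ = x⁻¹ := by
      intro s hs hsO
      apply B3_invert E s hs.1 (fun x hx => hEN s (hMleN s hsO) x hx)
      intro x hx hsx
      obtain ⟨g, hg1, hg2, hg⟩ := hF2 s hs hsO
      have hgN := (B3_norm (oddPart A) g hg1).1
      have h3 : g⁻¹ * x * g ∈ E := by
        have := hEN g⁻¹ (inv_mem hgN) x hx
        rwa [inv_inv] at this
      have h4 : g⁻¹ * x * g = 1 := by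
        apply hfix _ h3
        have h5 : τ = g⁻¹ * s * g := by rw [← hg]; group
        rw [h5]
        calc g⁻¹ * s * g * (g⁻¹ * x * g) = g⁻¹ * (s * x) * g := by group
          _ = g⁻¹ * (x * s) * g := by rw [hsx]
          _ = _ := by group
      calc x = g * (g⁻¹ * x * g) * g⁻¹ := by group
        _ = 1 := by rw [h4]; group
    have htτ : t * τ = τ * t := by
      have h3 := hdih τ hτA ⟨1, by rw [pow_one, pow_two]; exact hτ.1⟩
      have h4 : τ⁻¹ = τ := inv_eq_of_mul_eq_one_right hτ.1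
      rw [h4] at h3
      calc t * τ = (t * τ * t⁻¹) * t := by group
        _ = τ * t := by rw [h3]
    have hτt : IsInv (τ * t) := by
      refine ⟨?_, ?_⟩
      · calc τ * t * (τ * t) = τ * (t * τ) * t := by group
          _ = (τ * τ) * (t * t) := by rw [htτ]; group
          _ = 1 := by rw [hτ.1, htt, one_mul]
      · intro h
        apply htA
        have : t = τ⁻¹ := (eq_inv_of_mul_eq_one_right h)
        rw [this]; exact A.inv_mem hτA
    have hτtO : ∀ a ∈ oddPart A, τ * t * a = a * (τ * t) := by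
      intro a ha
      calc τ * t * a = τ * (t * a) := by group
        _ = (τ * a) * t := by rw [hcomm a ha]; group
        _ = a * (τ * t) := by rw [hτO a ha]; group
    apply hE
    rw [Subgroup.eq_bot_iff_forall]
    intro x hx
    have h5 := hinvert τ hτ hτO
    have h6 := hinvert t htinv hcomm
    have h7 := hinvert (τ * t) hτt hτtO x hx
    have h8 : τ * t * x * (τ * t)⁻¹ = x := by
      calc τ * t * x * (τ * t)⁻¹ = τ * (t * x * t⁻¹) * τ⁻¹ := by group
        _ = τ * x⁻¹ * τ⁻¹ := by rw [h6 x hx]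
        _ = x := by rw [h5 x⁻¹ (E.inv_mem hx), inv_inv]
    rw [h8] at h7
    have h9 : x ^ 2 = 1 := by
      rw [pow_two]
      nth_rewrite 2 [h7]
      group
    have h10 : orderOf x ∣ 2 := orderOf_dvd_of_pow_eq_one h9
    have h11 : orderOf (⟨x, hx⟩ : E) ∣ Nat.card E := orderOf_dvd_natCard _
    rw [← Subgroup.orderOf_coe] at h11
    have h12 : orderOf x ∣ Nat.gcd 2 (Nat.card E) := Nat.dvd_gcd h10 h11
    rw [(Nat.coprime_two_left).2 hnev] at h12
    exact orderOf_eq_one_iff.1 (Nat.dvd_one.1 h12)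
  -- `E` contains all involutions centralising the odd part
  have hEinv : ∀ s : L, IsInv s → (∀ a ∈ oddPart A, s * a = a * s) → s ∈ E := by
    intro s hs hsO
    have : Fact (Nat.Prime 2) := ⟨Nat.prime_two⟩
    obtain ⟨e, he⟩ := exists_prime_orderOf_dvd_card' 2 hEeven.two_dvd
    have heinv : IsInv (e : L) := by
      constructor
      · have h3 := pow_orderOf_eq_one e
        rw [he, pow_two] at h3
        exact congrArg Subtype.val h3
      · intro h
        have h3 : e = 1 := Subtype.ext h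
        rw [h3, orderOf_one] at he
        omega
    obtain ⟨g, hg, hge⟩ := hconjN e s heinv hs (hEO e e.2) hsO
    rw [← hge]
    exact hEN g hg e e.2
  have htE : t ∈ E := hEinv t htinv hcomm
  have hTE : twoPart A ≤ E := by
    intro a ha
    have haA := (h2 a).1 ha
    have h3 := hdih a haA.1 haA.2
    have h4 : a * t ∈ E := by
      apply hEinv
      · constructor
        · calc a * t * (a * t) = a * (t * a * t⁻¹) * (t * t) := by group
            _ = 1 := by rw [h3, htt]; group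
        · intro h
          apply htA
          rw [eq_inv_of_mul_eq_one_right h]
          exact A.inv_mem haA.1
      · intro b hb
        calc a * t * b = a * (t * b) := by group
          _ = (a * b) * t := by rw [hcomm b hb]; group
          _ = b * (a * t) := by rw [hAcomm a haA.1 b (hOA b hb)]; group
    have h5 : a = (a * t) * t⁻¹ := by group
    rw [h5]
    exact E.mul_mem h4 (E.inv_mem htE)
  have hτT : τ ∈ twoPart A := (h2 τ).2 ⟨hτA, 1, by rw [pow_one, pow_two]; exact hτ.1⟩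
  have hT2 : 2 ≤ Nat.card (twoPart A) := by
    by_contra h
    have h3 : Nat.card (twoPart A) = 1 := by
      have : 0 < Nat.card (twoPart A) := Nat.card_pos
      omega
    have h4 := Subgroup.eq_bot_of_card_eq _ h3
    rw [h4, Subgroup.mem_bot] at hτT
    exact hτ.2 hτT
  have hET : 2 * Nat.card (twoPart A) ≤ Nat.card E := by
    obtain ⟨q, hq⟩ := Subgroup.card_dvd_of_le hTE
    have hq1 : q ≠ 1 := by
      intro h
      rw [h, mul_one] at hq
      have h3 := Subgroup.eq_of_le_of_card_ge hTE hq.le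
      rw [← h3] at htE
      exact htA (hTA t htE)
    have hq0 : q ≠ 0 := by
      intro h
      rw [h, mul_zero] at hq
      have : 0 < Nat.card E := Nat.card_pos
      omega
    rw [hq, mul_comm 2]
    exact Nat.mul_le_mul_left _ (by omega)
  -- MN in the normaliser
  set N := Subgroup.normalizer (oddPart A : Set L) with hN
  have hEleN : E ≤ N := fun x hx => hMleN x (hEO x hx)
  have hTleN : twoPart A ≤ N := hTE.trans hEleN
  have : Fact (Nat.Prime 2) := ⟨Nat.prime_two⟩
  have hTp : IsPGroup 2 ((twoPart A).subgroupOf N) := by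
    apply IsPGroup.of_card (n := n2)
    rw [← hn2]
    exact Nat.card_congr (Subgroup.subgroupOfEquivOfLe hTleN).toEquiv
  obtain ⟨S, hS⟩ := hTp.exists_le_sylow
  have hcardT' : Nat.card ((twoPart A).subgroupOf N) = Nat.card (twoPart A) :=
    Nat.card_congr (Subgroup.subgroupOfEquivOfLe hTleN).toEquiv
  have hcardE' : Nat.card (E.subgroupOf N) = Nat.card E :=
    Nat.card_congr (Subgroup.subgroupOfEquivOfLe hEleN).toEquiv
  have hSle : Nat.card S ≤ 2 * Nat.card ((twoPart A).subgroupOf N) := by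
    rw [hcardT']
    have hSp := IsPGroup.iff_card.1 S.2
    obtain ⟨i, hi⟩ := hSp
    have hd : Nat.card S ∣ Nat.card L :=
      ((S : Subgroup N).card_subgroup_dvd_card).trans (N.card_subgroup_dvd_card)
    rw [hcardL] at hd
    have hi' : Nat.card S = 2 ^ i := hi
    have hc1 : Nat.Coprime (Nat.card S) (Nat.card (oddPart A)) := by
      rw [hi']; exact Nat.Coprime.pow_left _ hO2.symm
    have hc2 : Nat.Coprime (Nat.card S) (Nat.card (MulAction.stabilizer L α)) := by
      rw [hi']; exact Nat.Coprime.pow_left _ hst2.symm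
    have hd2 := hc1.dvd_of_dvd_mul_left hd
    have hd3 := hc2.dvd_of_dvd_mul_right hd2
    exact Nat.le_of_dvd (by omega) hd3
  have hcycT' : IsCyclic ((twoPart A).subgroupOf N) :=
    (Subgroup.subgroupOfEquivOfLe hTleN).isCyclic.2 hcycT
  have hE'n : (E.subgroupOf N).Normal := by
    constructor
    intro x hx g
    rw [Subgroup.mem_subgroupOf] at hx ⊢
    exact hEN g g.2 x hx
  have hE'ne : E.subgroupOf N ≠ ⊥ := by
    intro h
    have h3 : (⟨t, hEleN htE⟩ : N) ∈ E.subgroupOf N := Subgroup.mem_subgroupOf.2 htE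
    rw [h, Subgroup.mem_bot] at h3
    exact htinv.2 (congrArg Subtype.val h3)
  have hE'min : ∀ K : Subgroup N, K.Normal → K ≤ E.subgroupOf N → K = ⊥ ∨ K = E.subgroupOf N := by
    intro K hK hKE
    have h3 : K.map N.subtype ≤ E := by
      rintro _ ⟨y, hy, rfl⟩
      exact Subgroup.mem_subgroupOf.1 (hKE hy)
    have h4 : ∀ g ∈ N, ∀ x ∈ K.map N.subtype, g * x * g⁻¹ ∈ K.map N.subtype := by
      rintro g hg _ ⟨y, hy, rfl⟩
      exact ⟨_, hK.conj_mem y hy ⟨g, hg⟩, rfl⟩
    rcases hEmin _ h3 h4 with h5 | h5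
    · left
      rw [Subgroup.eq_bot_iff_forall]
      intro x hx
      have h6 : (x : L) ∈ K.map N.subtype := ⟨x, hx, rfl⟩
      rw [h5, Subgroup.mem_bot] at h6
      exact Subtype.ext h6
    · right
      apply le_antisymm hKE
      intro x hx
      have h6 : (x : L) ∈ K.map N.subtype := by
        rw [h5]; exact Subgroup.mem_subgroupOf.1 hx
      obtain ⟨y, hy, hyx⟩ := h6
      have h7 : y = x := Subtype.ext hyx
      rw [← h7]; exact hy
  have hMNapp := hMN N S ((twoPart A).subgroupOf N) (E.subgroupOf N) hS hcycT' hSle hE'n hE'ne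
    hE'min (by rw [hcardE']; exact hEeven)
  rw [hcardE'] at hMNapp
  rcases hMNapp with ⟨hsq, hE4⟩ | hsimple
  · have hT : Nat.card (twoPart A) = 2 := by omega
    have hE4' : Nat.card E = 4 := by omega
    refine ⟨hT, ?_, hconjN⟩
    have e1 : {s : L // IsInv s ∧ ∀ a ∈ oddPart A, s * a = a * s} ≃ {x : E // x ≠ 1} :=
      { toFun := fun s => ⟨⟨s.1, hEinv s.1 s.2.1 s.2.2⟩, fun h =>
          s.2.1.2 (congrArg Subtype.val h)⟩
        invFun := fun x => ⟨x.1.1, ⟨by
          have h3 := hsq ⟨x.1.1, hEleN x.1.2⟩ (Subgroup.mem_subgroupOf.2 x.1.2)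
          exact congrArg Subtype.val h3, fun h => x.2 (Subtype.ext h)⟩, hEO x.1.1 x.1.2⟩
        left_inv := fun s => rfl
        right_inv := fun x => rfl }
    rw [Nat.card_congr e1]
    have : Fintype E := Fintype.ofFinite _
    rw [Nat.card_eq_fintype_card, Fintype.card_subtype_compl, Fintype.card_subtype_eq,
      ← Nat.card_eq_fintype_card, hE4']
  · exfalso
    have hNAE : NASimple E := by
      obtain ⟨hs1, a, b, hab⟩ := hsimple
      let e := Subgroup.subgroupOfEquivOfLe hEleN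
      refine ⟨?_, e a, e b, ?_⟩
      · exact e.isSimpleGroup_congr.1 hs1
      · rw [← map_mul, ← map_mul]
        exact fun h => hab (e.injective h)
    have hcne : Nat.card (oddPart A) ≠ 1 := by
      intro h
      exact hne (Subgroup.eq_bot_of_card_eq _ h)
    obtain ⟨r, hr, hrd⟩ := Nat.exists_prime_and_dvd hcne
    have : Fact r.Prime := ⟨hr⟩
    obtain ⟨ρ, hρ⟩ := exists_prime_orderOf_dvd_card' r hrd
    have hρ' : orderOf (ρ : L) = r := by rw [Subgroup.orderOf_coe]; exact hρ
    have hρp : (orderOf (ρ : L)).Prime := by rw [hρ']; exact hr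
    have hB := hB1 L Ω A t hLL ⟨htt, htA, hdih⟩ hcomm hTG ρ ρ.2 hρp
    obtain ⟨hLLE, hlt⟩ := hM3 L Ω A t ρ hLL ⟨htt, htA, hdih⟩ ρ.2 hρp (hcomm ρ ρ.2) E
      (fun x hx => hEO x hx ρ ρ.2)
      (fun g hg x hx => hEN g ((B3_norm (oddPart A) g (hB g hg)).1) x hx) hNAE hEeven α
    obtain ⟨c, hc, hc3, hcc, -⟩ := (hTG E (MulAction.orbit E α) (A.subgroupOf E) hLLE hlt).card
    have h3 := hLLE.cardA
    rw [hcc] at h3
    -- the order of `A ∩ E` is a power of 2
    have h4 : Nat.card (A.subgroupOf E) ∣ Nat.card A := by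
      have : Function.Injective (fun x : A.subgroupOf E => (⟨x.1.1, Subgroup.mem_subgroupOf.1 x.2⟩ : A)) := by
        intro x y hxy
        have h5 := congrArg Subtype.val hxy
        exact Subtype.ext (Subtype.ext h5)
      let f : A.subgroupOf E →* A :=
        { toFun := fun x => ⟨x.1.1, Subgroup.mem_subgroupOf.1 x.2⟩
          map_one' := rfl
          map_mul' := fun _ _ => rfl }
      exact Subgroup.card_dvd_of_injective f this
    have h5 : Nat.card (A.subgroupOf E) ∣ Nat.card M :=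
      ((A.subgroupOf E).card_subgroup_dvd_card).trans (Subgroup.card_dvd_of_le hEM)
    rw [← hcard] at h4
    have h6 : Nat.Coprime (Nat.card (A.subgroupOf E)) (Nat.card (oddPart A)) :=
      Nat.Coprime.coprime_dvd_left h5 hM5
    have h7 := h6.dvd_of_dvd_mul_left h4
    rw [hn2] at h7
    obtain ⟨j, -, hj⟩ := (Nat.dvd_prime_pow Nat.prime_two).1 h7
    rw [hj] at h3
    exact B3_arith c j hc hc3 h3

end Pool.Agent.helper53.AU
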