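import Pool.Agent.helper53.AU.SpecG3

/-!
# Project au, module B4
-/

namespace Pool.Agent.helper53.AU

open scoped Classical

theorem B4 (hPLL : PLL_stmt) (hAB : AB_stmt) (hP1 : P1_stmt) (hP6 : P6_stmt) (hPA : PA_stmt)
    (hSR : SR_stmt) : B4_stmt := by
  intro L Ω _ _ A t hLL hD hcomm hne hT
  have hPL := hPLL L Ω A hLL
  have := hLL.finL
  have := hLL.finΩ
  have := hLL.faithful
  have := hLL.trans
  have := hPL.nonempty
  obtain ⟨⟨τ, hτA, hτ⟩, hconj⟩ := hP1 L Ω A hPL
  obtain ⟨htτ, htn, hmem, hreg, -⟩ := hP6 L Ω A hPL τ t hτA hτ hD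
  obtain ⟨ho, h2, hcard, hodd, -, -, -, hdec, -, -⟩ := hAB L A hLL.cyc
  have hAcomm : ∀ a ∈ A, ∀ b ∈ A, a * b = b * a := by
    intro a ha b hb
    have := hLL.cyc
    have h0 := isMulCommutative_iff.1 (IsCyclic.isMulCommutative (α := A)) ⟨a, ha⟩ ⟨b, hb⟩
    exact congrArg Subtype.val h0
  obtain ⟨htt, htA, hdih⟩ := hD
  -- every element of the 2-part is of order at most 2
  have hsq : ∀ c ∈ twoPart A, c * c = 1 := by
    intro c hc
    have := pow_card_eq_one' (x := (⟨c, hc⟩ : twoPart A))
    rw [hT] at this
    have h3 := congrArg Subtype.val this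
    simpa [pow_two] using h3
  have htc : ∀ a ∈ A, t * a = a * t := by
    intro a ha
    obtain ⟨b, hb, c, hc, rfl⟩ := hdec a ha
    have hcA := (h2 c).1 hc
    have h1 : t * b = b * t := hcomm b hb
    have h4 : t * c * t⁻¹ = c⁻¹ := hdih c hcA.1 hcA.2
    have h5 : c⁻¹ = c := by
      rw [inv_eq_iff_mul_eq_one]; exact hsq c hc
    rw [h5] at h4
    have h6 : t * c = c * t := by
      calc t * c = (t * c * t⁻¹) * t := by group
        _ = c * t := by rw [h4]
    rw [← mul_assoc, h1, mul_assoc, h6, mul_assoc]
  have hDcomm : ∀ a ∈ A ⊔ Subgroup.zpowers t, ∀ b ∈ A ⊔ Subgroup.zpowers t, a * b = b * a := by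
    have hle : A ⊔ Subgroup.zpowers t ≤ Subgroup.centralizer ((A : Set L) ∪ {t}) := by
      rw [sup_le_iff]
      constructor
      · intro a ha
        rw [Subgroup.mem_centralizer_iff]
        rintro x (hx | hx)
        · exact hAcomm x hx a ha
        · rw [Set.mem_singleton_iff] at hx
          subst hx; exact htc a ha
      · rw [Subgroup.zpowers_le, Subgroup.mem_centralizer_iff]
        rintro x (hx | hx)
        · exact (htc x hx).symm
        · rw [Set.mem_singleton_iff] at hx
          subst hx; rfl
    intro a ha b hb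
    have h7 : A ⊔ Subgroup.zpowers t ≤ Subgroup.centralizer ({a} : Set L) := by
      have hAc := Subgroup.mem_centralizer_iff.1 (hle ha)
      rw [sup_le_iff]
      constructor
      · intro x hx
        rw [Subgroup.mem_centralizer_iff]
        intro y hy
        rw [Set.mem_singleton_iff] at hy
        subst hy
        exact (hAc x (Or.inl hx)).symm
      · rw [Subgroup.zpowers_le, Subgroup.mem_centralizer_iff]
        intro y hy
        rw [Set.mem_singleton_iff] at hy
        subst hy
        exact (hAc t (Or.inr rfl)).symm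
    exact Subgroup.mem_centralizer_iff.1 (h7 hb) a rfl
  have hprim := hPA L Ω (A ⊔ Subgroup.zpowers t) hLL.simple hLL.trans hreg hDcomm
  -- a prime divisor of the order of the odd part
  have hcne : Nat.card (oddPart A) ≠ 1 := by
    intro h
    exact hne (Subgroup.eq_bot_of_card_eq _ h)
  obtain ⟨r, hr, hrd⟩ := Nat.exists_prime_and_dvd hcne
  have hrodd : Odd r := hodd.of_dvd_nat hrd
  have hrA : r ∣ Nat.card A := by
    rw [← hcard]; exact hrd.mul_right _
  obtain ⟨ω⟩ := hPL.nonempty
  refine hSR L Ω (A ⊔ Subgroup.zpowers t) ⊥ ω r hLL.trans hprim hDcomm ?_ ?_ hr ?_ ?_ ?_ ?_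
  · intro a _ e he
    rw [Subgroup.mem_bot] at he
    subst he; simp
  · intro α β
    obtain ⟨d, hd, hu⟩ := hreg α β
    refine ⟨(d, 1), by simpa using hd, ?_⟩
    rintro ⟨p, q⟩ hpq
    have hq : q = 1 := Subsingleton.elim _ _
    subst hq
    have : p = d := hu p (by simpa using hpq)
    rw [this]
  · -- exactly r elements
    have hsub : ∀ x : L, (x ∈ A ⊔ Subgroup.zpowers t ∧ x ^ r = 1) ↔ (x ∈ A ∧ x ^ r = 1) := by
      intro x
      constructor
      · rintro ⟨hx, hx1⟩
        refine ⟨?_, hx1⟩
        rcases (hmem x).1 hx with h | h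
        · exact h
        · exfalso
          have hc : Commute x t := by
            have h8 := hDcomm x hx t (le_sup_right (a := A) (Subgroup.mem_zpowers t))
            exact h8
          have h9 : (x * t) ^ r = t := by
            rw [hc.mul_pow, hx1, one_mul]
            obtain ⟨m, hm⟩ := hrodd
            rw [hm, pow_succ, pow_mul, pow_two, htt, one_pow, one_mul]
          exact htA (h9 ▸ A.pow_mem h r)
      · rintro ⟨hx, hx1⟩
        exact ⟨le_sup_left (a := A) hx, hx1⟩
    have := hLL.cyc
    have e1 : {a : L // a ∈ A ⊔ Subgroup.zpowers t ∧ a ^ r = 1} ≃ {a : A // a ^ r = 1} :=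
      { toFun := fun a => ⟨⟨a.1, ((hsub a.1).1 a.2).1⟩, Subtype.ext (by simpa using a.2.2)⟩
        invFun := fun a => ⟨a.1.1, (hsub _).2 ⟨a.1.2, by
          have := congrArg Subtype.val a.2
          simpa using this⟩⟩
        left_inv := fun a => rfl
        right_inv := fun a => rfl }
    rw [Nat.card_congr e1]
    have : Fintype A := Fintype.ofFinite _
    have : Fact r.Prime := ⟨hr⟩
    obtain ⟨x, hx⟩ := exists_prime_orderOf_dvd_card' r hrA
    apply le_antisymm
    · rw [Nat.card_eq_fintype_card, Fintype.card_subtype]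
      exact IsCyclic.card_pow_eq_one_le hr.pos
    · have h11 : Nat.card (Subgroup.zpowers x) = r := by rw [Nat.card_zpowers, hx]
      calc r = Nat.card (Subgroup.zpowers x) := h11.symm
        _ ≤ Nat.card {a : A // a ^ r = 1} := by
          apply Nat.card_le_card_of_injective
            (fun y : Subgroup.zpowers x => (⟨y.1, by
              rw [← h11]
              exact congrArg Subtype.val (pow_card_eq_one' (x := y))⟩ : {a : A // a ^ r = 1}))
          intro y z hyz
          have h12 : (y : A) = (z : A) := by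
            simpa using congrArg Subtype.val hyz
          exact Subtype.ext h12
  · simp
    exact hr.ne_one
  · rw [← hLL.cardA]
    have hpos : 0 < Nat.card A := Nat.card_pos
    have := Nat.le_of_dvd hpos hrA
    omega
  · intro a _ e₁ he₁ _ _ h
    exact absurd (Subgroup.mem_bot.1 he₁) h

end Pool.Agent.helper53.AU
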