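import Pool.Agent.helper87.AU.SpecQ1

/-!
# Project au, module QD0: the trace form of a one-point basis
-/

namespace Pool.Agent.helper53.AU

open scoped Classical IntermediateField
open Polynomial (aeval)

noncomputable section

theorem QD0_transc {k F : Type} [Field k] [IsAlgClosed k] [Field F] [Algebra k F]
    (P₀ : Place k F) (x : F) (n : ℕ) (hn : 0 < n) (hx : P₀.ord x = -(n : ℤ)) :
    Transcendental k x := by
  intro halg
  have hint : IsIntegral k x := halg.isIntegral
  have : Algebra.IsAlgebraic k k⟮x⟯ := IntermediateField.isAlgebraic_adjoin_simple hint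
  have hbot := IntermediateField.eq_bot_of_isAlgClosed_of_isAlgebraic k⟮x⟯
  have hmem : x ∈ k⟮x⟯ := IntermediateField.mem_adjoin_simple_self k x
  rw [hbot, IntermediateField.mem_bot] at hmem
  obtain ⟨c, hc⟩ := hmem
  by_cases h0 : c = 0
  · rw [h0, map_zero] at hc
    rw [← hc, P₀.ord_zero] at hx
    omega
  · rw [← hc, P₀.ord_const c h0] at hx
    omega

theorem QD0 (hQA2 : QA2_stmt) (hQZ3 : QZ3_stmt) : QD0_stmt := by
  intro k F _ _ _ _ hFF P₀ x n u μ hO
  have htr := QD0_transc P₀ x n hO.pos hO.xord
  have hdeg : degx k x = n := by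
    have h1 := (hQZ3 k F hFF x htr).2
    rw [finsum_eq_single _ P₀] at h1
    · rw [hO.xord, neg_neg, max_eq_left (by omega)] at h1
      exact_mod_cast h1.symm
    · intro P hP
      have h2 := hO.xreg P hP
      rcases h2 with h2 | h2
      · rw [h2, P.ord_zero]; rfl
      · rw [max_eq_right (by omega)]
  have hli : LinearIndependent k⟮x⟯ u := by
    rw [Fintype.linearIndependent_iff]
    intro c hc
    have hrep : ∀ i, ∃ r s : Polynomial k, aeval x s ≠ 0 ∧ (c i : F) * aeval x s = aeval x r := by
      intro i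
      obtain ⟨r, s, hrs⟩ := (IntermediateField.mem_adjoin_simple_iff k (c i : F)).1 (c i).2
      by_cases hs : aeval x s = 0
      · refine ⟨0, 1, by simp, ?_⟩
        rw [hrs, hs]; simp
      · exact ⟨r, s, hs, by rw [hrs]; field_simp⟩
    choose r s hs hrs using hrep
    have hφ : ∀ i, (c i : F) * aeval x (∏ j, s j) = aeval x (r i * ∏ j ∈ Finset.univ.erase i, s j) := by
      intro i
      rw [map_mul, ← hrs i, mul_assoc, ← map_mul, Finset.mul_prod_erase _ _ (Finset.mem_univ i)]
    have hsum : ∑ i, aeval x (r i * ∏ j ∈ Finset.univ.erase i, s j) * u i = 0 := by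
      have h3 : ∑ i, aeval x (r i * ∏ j ∈ Finset.univ.erase i, s j) * u i
          = aeval x (∏ j, s j) * ∑ i, c i • u i := by
        rw [Finset.mul_sum]
        apply Finset.sum_congr rfl
        intro i _
        rw [← hφ i, IntermediateField.smul_def, smul_eq_mul]
        ring
      rw [h3, hc, mul_zero]
    have hall : ∀ i, r i * ∏ j ∈ Finset.univ.erase i, s j = 0 := by
      by_contra hne
      push Not at hne
      exact (hQA2 k F P₀ x n u μ hO _ hne).1 hsum
    intro i
    have h4 := hφ i
    rw [hall i, map_zero] at h4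
    have h5 : aeval x (∏ j, s j) ≠ 0 := by
      rw [map_prod]
      exact Finset.prod_ne_zero_iff.2 fun j _ => hs j
    rcases mul_eq_zero.1 h4 with h6 | h6
    · exact Subtype.ext h6
    · exact absurd h6 h5
  refine ⟨htr, hdeg, hli, ?_⟩
  intro h hh A hA
  have hne : Nonempty (Fin n) := ⟨⟨0, hO.pos⟩⟩
  have hcard : Fintype.card (Fin n) = Module.finrank k⟮x⟯ F := by
    rw [Fintype.card_fin]; exact hdeg.symm
  let b := basisOfLinearIndependentOfCardEqFinrank hli hcard
  have hb : ∀ i, b i = u i := fun i => by
    rw [show (b : Fin n → F) = u from coe_basisOfLinearIndependentOfCardEqFinrank hli hcard]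
  let φ : Polynomial k →ₐ[k] k⟮x⟯ := aeval (IntermediateField.AdjoinSimple.gen k x)
  have hφ : ∀ p : Polynomial k, ((φ p : k⟮x⟯) : F) = aeval x p := by
    intro p
    have h1 := Polynomial.aeval_algebraMap_apply F (IntermediateField.AdjoinSimple.gen k x) p
    rw [IntermediateField.AdjoinSimple.algebraMap_gen] at h1
    exact h1.symm
  have hmat : Algebra.leftMulMatrix b h = φ.toRingHom.mapMatrix A := by
    ext i j
    rw [Algebra.leftMulMatrix_eq_repr_mul, hb j, hA j]
    have h7 : ∑ i, aeval x (A i j) * u i = ∑ i, φ (A i j) • b i := by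
      apply Finset.sum_congr rfl
      intro l _
      rw [hb, IntermediateField.smul_def, hφ, smul_eq_mul]
    rw [h7, Module.Basis.repr_sum_self]
    rfl
  constructor
  · rw [Algebra.trace_eq_matrix_trace b, hmat, ← hφ]
    congr 1
    rw [Matrix.trace, Matrix.trace, map_sum]
    rfl
  · rw [Algebra.norm_eq_matrix_det b, hmat, ← hφ]
    congr 1
    rw [← RingHom.map_det]
    rfl

end

end Pool.Agent.helper53.AU
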