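import Pool.Agent.helper87.AU.SpecQ1

/-!
# Project au, module QD1: the degree of the discriminant
-/

namespace Pool.Agent.helper53.AU

open scoped Classical IntermediateField
open Polynomial (aeval)

noncomputable section

/-- determinant with one dominant permutation -/
theorem QD1_det {k : Type} [Field k] {n : ℕ} (hn : 0 < n) (M : Matrix (Fin n) (Fin n) (Polynomial k))
    (μ : Fin n → ℕ) (hμ : ∀ i, μ i % n = (i : ℕ))
    (h1 : ∀ i j, n * (M i j).natDegree ≤ μ i + μ j)
    (h2 : ∀ i j : Fin n, ((i : ℕ) + (j : ℕ)) % n = 0 → M i j ≠ 0 ∧ n * (M i j).natDegree = μ i + μ j) :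
    M.det ≠ 0 ∧ n * M.det.natDegree = 2 * ∑ i, μ i := by
  have : NeZero n := ⟨by omega⟩
  let σ₀ : Equiv.Perm (Fin n) := Equiv.neg (Fin n)
  have hσ₀ : ∀ i, σ₀ i = -i := fun i => rfl
  have hadd : ∀ i : Fin n, (((σ₀ i : Fin n) : ℕ) + (i : ℕ)) % n = 0 := by
    intro i
    have h3 : (-i + i : Fin n) = 0 := neg_add_cancel i
    have h4 := congrArg Fin.val h3
    rw [Fin.val_add] at h4
    rw [hσ₀]
    simpa using h4
  set D := ∑ i, (M (σ₀ i) i).natDegree with hD
  have hDn : n * D = 2 * ∑ i, μ i := by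
    rw [hD, Finset.mul_sum, Finset.sum_congr rfl (fun i _ => (h2 _ _ (hadd i)).2),
      Finset.sum_add_distrib, Equiv.sum_comp σ₀ μ]
    ring
  have hne : ∀ i, M (σ₀ i) i ≠ 0 := fun i => (h2 _ _ (hadd i)).1
  have hprod : (∏ i, M (σ₀ i) i).natDegree = D := by
    rw [Polynomial.natDegree_prod _ _ (fun i _ => hne i)]
  have hprod0 : (∏ i, M (σ₀ i) i) ≠ 0 := Finset.prod_ne_zero_iff.2 fun i _ => hne i
  have hcoeff : ∀ σ : Equiv.Perm (Fin n), σ ≠ σ₀ → (∏ i, M (σ i) i) = 0 ∨
      (∏ i, M (σ i) i).natDegree < D := by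
    intro σ hσ
    by_cases h0 : (∏ i, M (σ i) i) = 0
    · exact Or.inl h0
    · right
      have h0' := Finset.prod_ne_zero_iff.1 h0
      rw [Polynomial.natDegree_prod _ _ h0']
      have hex : ∃ i, ¬ ((((σ i : Fin n) : ℕ) + (i : ℕ)) % n = 0) := by
        by_contra hall
        push Not at hall
        apply hσ
        ext i
        have h5 : σ i + i = 0 := by
          apply Fin.ext
          rw [Fin.val_add, hall i]
          simp
        rw [eq_neg_of_add_eq_zero_left h5, hσ₀]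
      obtain ⟨i₀, hi₀⟩ := hex
      have hlt : n * ∑ i, (M (σ i) i).natDegree < n * D := by
        rw [hDn, Finset.mul_sum]
        have h6 : ∑ i, n * (M (σ i) i).natDegree < ∑ i, (μ (σ i) + μ i) := by
          apply Finset.sum_lt_sum (fun i _ => h1 _ _) ⟨i₀, Finset.mem_univ _, ?_⟩
          refine lt_of_le_of_ne (h1 _ _) ?_
          intro heq
          apply hi₀
          have h7 : (μ (σ i₀) + μ i₀) % n = 0 := by rw [← heq]; exact Nat.mul_mod_right _ _
          rw [Nat.add_mod, hμ, hμ] at h7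
          exact h7
        rw [Finset.sum_add_distrib, Equiv.sum_comp σ μ] at h6
        linarith
      exact lt_of_mul_lt_mul_left hlt (Nat.zero_le n)
  have hdet : M.det = Equiv.Perm.sign σ₀ • (∏ i, M (σ₀ i) i) +
      ∑ σ ∈ Finset.univ.erase σ₀, Equiv.Perm.sign σ • (∏ i, M (σ i) i) := by
    rw [Matrix.det_apply, ← Finset.add_sum_erase _ _ (Finset.mem_univ σ₀)]
  have hsd : ∀ (s : ℤˣ) (p : Polynomial k), (s • p).degree = p.degree := by
    intro s p
    rcases Int.units_eq_one_or s with h | h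
    · rw [h, one_smul]
    · rw [h, Units.neg_smul, one_smul, Polynomial.degree_neg]
  have hdegT : (Equiv.Perm.sign σ₀ • (∏ i, M (σ₀ i) i)).degree = (D : WithBot ℕ) := by
    rw [hsd, Polynomial.degree_eq_natDegree hprod0, hprod]
  have hdegR : (∑ σ ∈ Finset.univ.erase σ₀, Equiv.Perm.sign σ • (∏ i, M (σ i) i)).degree
      < (D : WithBot ℕ) := by
    refine lt_of_le_of_lt (Polynomial.degree_sum_le _ _) ?_
    refine (Finset.sup_lt_iff (WithBot.bot_lt_coe D)).2 ?_
    intro σ hσ
    rw [hsd]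
    rcases hcoeff σ (Finset.ne_of_mem_erase hσ) with h | h
    · rw [h, Polynomial.degree_zero]; exact WithBot.bot_lt_coe D
    · exact lt_of_le_of_lt Polynomial.degree_le_natDegree (WithBot.coe_lt_coe.2 h)
  have hdegdet : M.det.degree = (D : WithBot ℕ) := by
    rw [hdet, Polynomial.degree_add_eq_left_of_degree_lt (by rw [hdegT]; exact hdegR), hdegT]
  have hdet0 : M.det ≠ 0 := by
    intro h
    rw [h, Polynomial.degree_zero] at hdegdet
    exact absurd hdegdet (WithBot.bot_ne_coe)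
  refine ⟨hdet0, ?_⟩
  rw [Polynomial.natDegree_eq_of_degree_eq_some hdegdet, hDn]

theorem QD1 (hQV1 : QV1_stmt) (hQN0 : QN0_stmt) (hQN1 : QN1_stmt) (hQD0 : QD0_stmt) : QD1_stmt := by
  intro k F _ _ _ _ hFF P₀ x n u μ hO hchar
  obtain ⟨htr, hdeg, hli, htrace⟩ := hQD0 k F hFF P₀ x n u μ hO
  have hreg : ∀ i j, u i * u j ∈ Reg P₀ := fun i j => mul_mem (hO.reg i) (hO.reg j)
  have hex : ∀ i j, ∃ A : Matrix (Fin n) (Fin n) (Polynomial k), MulMat x u (u i * u j) A :=
    fun i j => (hQN0 k F P₀ x n u μ hO _ (hreg i j)).exists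
  choose A hA using hex
  let M : Matrix (Fin n) (Fin n) (Polynomial k) := fun i j => (A i j).trace
  have hne : ∀ i j, u i * u j ≠ 0 := fun i j => mul_ne_zero (hO.ne i) (hO.ne j)
  have hord : ∀ i j, P₀.ord (u i * u j) = -((μ i + μ j : ℕ) : ℤ) := by
    intro i j
    rw [P₀.ord_mul _ _ (hO.ne i) (hO.ne j), hO.ord, hO.ord]
    push_cast; ring
  have h1 : ∀ i j, n * (M i j).natDegree ≤ μ i + μ j := by
    intro i j
    have h3 := (hQN1 k F hFF P₀ x n u μ hO _ (hreg i j) (hne i j) _ (hA i j)).2.2.1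
    rw [hord i j, neg_neg] at h3
    exact_mod_cast h3
  have hx0 : x ≠ 0 := by
    intro h
    have h3 := hO.xord
    rw [h, P₀.ord_zero] at h3
    have := hO.pos
    omega
  have h2 : ∀ i j : Fin n, ((i : ℕ) + (j : ℕ)) % n = 0 →
      M i j ≠ 0 ∧ n * (M i j).natDegree = μ i + μ j := by
    intro i j hij
    have h3 := (hQN1 k F hFF P₀ x n u μ hO _ (hreg i j) (hne i j) _ (hA i j)).2.2.2
    have h4 : (μ i + μ j) % n = 0 := by
      rw [Nat.add_mod, hO.res, hO.res]; exact hij
    obtain ⟨m, hm⟩ := Nat.dvd_of_mod_eq_zero h4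
    have hxm : x ^ m ≠ 0 := pow_ne_zero _ hx0
    have hordxm : P₀.ord (x ^ m) = -((n * m : ℕ) : ℤ) := by
      rw [P₀.ord_pow hx0, hO.xord]; push_cast; ring
    have hq : P₀.Ge 0 (u i * u j / x ^ m) := by
      right
      rw [P₀.ord_div (hne i j) hxm, hord, hordxm, hm]; simp
    obtain ⟨c, hc⟩ := hQV1 k F hFF P₀ _ hq
    have h5 : P₀.Ge (P₀.ord (u i * u j) + 1) (u i * u j - algebraMap k F c * x ^ m) := by
      have h6 : u i * u j - algebraMap k F c * x ^ m =
          x ^ m * (u i * u j / x ^ m - algebraMap k F c) := by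
        field_simp
      rw [h6]
      have h7 := (P₀.ge_ord (x ^ m)).mul hc
      rw [hord, hm, ← hordxm]
      exact h7
    have hc0 : c ≠ 0 := by
      intro h
      rw [h, map_zero, zero_mul, sub_zero] at h5
      have h8 := h5.le (hne i j)
      omega
    have h9 := h3 m c (by rw [hord, neg_neg, hm]; push_cast; ring) h5
    have h10 : (M i j).coeff m ≠ 0 := by
      show (A i j).trace.coeff m ≠ 0
      rw [h9]; exact mul_ne_zero hchar hc0
    have h11 : m ≤ (M i j).natDegree := Polynomial.le_natDegree_of_ne_zero h10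
    refine ⟨fun h => h10 (by rw [h]; simp), le_antisymm (h1 i j) ?_⟩
    rw [hm]
    exact Nat.mul_le_mul_left n h11
  obtain ⟨hd0, hd⟩ := QD1_det hO.pos M μ hO.res h1 h2
  refine ⟨M.det, hd0, ?_, by exact_mod_cast hd⟩
  let φ : Polynomial k →ₐ[k] k⟮x⟯ := aeval (IntermediateField.AdjoinSimple.gen k x)
  have hφ : ∀ p : Polynomial k, ((φ p : k⟮x⟯) : F) = aeval x p := by
    intro p
    have h1 := Polynomial.aeval_algebraMap_apply F (IntermediateField.AdjoinSimple.gen k x) p
    rw [IntermediateField.AdjoinSimple.algebraMap_gen] at h1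
    exact h1.symm
  have hmat : Algebra.traceMatrix k⟮x⟯ u = φ.toRingHom.mapMatrix M := by
    ext i j
    rw [Algebra.traceMatrix_apply, Algebra.traceForm_apply]
    rw [(htrace _ (hreg i j) _ (hA i j)).1, ← hφ]
    rfl
  rw [Algebra.discr_def, hmat, ← RingHom.map_det, ← hφ]
  rfl

end

end Pool.Agent.helper53.AU
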