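import Pool.Agent.helper2.AU.SpecX

/-!
# Project au, module XE: the ramification index is the order of the stabilizer
-/

namespace Pool.Agent.helper53.AU

open scoped Classical IntermediateField
open Polynomial (aeval)

noncomputable section

theorem XE (hXB : XB_stmt) (hXS : XS_stmt) (hXT : XT_stmt) : XE_stmt := by
  intro k F _ _ _ _ hFF H _ P Q e hP
  obtain ⟨π, ee, hπ, huniq⟩ := hXB k F H
  obtain ⟨hPQ, hPe⟩ := huniq P Q e hP
  -- the orbit of `P`
  let O : Finset (Place k F) := Finset.univ.image fun s : H => (s : F ≃ₐ[k] F) • P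
  let a : Place k (IntermediateField.fixedField H) → ℤ := fun R => if R = Q then 1 else 0
  have ha : (Function.support a).Finite := by
    apply (Set.finite_singleton Q).subset
    intro R hR
    by_contra hne
    exact hR (if_neg hne)
  have hS := (hXS k F hFF H π ee hπ a ha).2
  have hbelow : ∀ s : H, Below (IntermediateField.fixedField H) ((s : F ≃ₐ[k] F) • P) Q e := by
    intro s
    refine ⟨hP.1, fun f => ?_⟩
    rw [Place.smul_ord, ← hP.2 f]
    have h4 : (s : F ≃ₐ[k] F) (f : F) = f :=
      (IntermediateField.mem_fixedField_iff H (f : F)).1 f.2 s s.2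
    conv_lhs => rw [← h4]
    rw [AlgEquiv.symm_apply_apply]
  have hval : ∀ P' : Place k F, (ee P' : ℤ) * a (π P') = if P' ∈ O then (e : ℤ) else 0 := by
    intro P'
    by_cases hmem : P' ∈ O
    · obtain ⟨s, -, hs⟩ := Finset.mem_image.1 hmem
      obtain ⟨h1, h2⟩ := huniq P' Q e (hs ▸ hbelow s)
      rw [if_pos hmem]
      simp only [a]
      rw [if_pos h1.symm, mul_one, h2]
    · rw [if_neg hmem]
      simp only [a]
      rw [if_neg, mul_zero]
      intro hQ
      apply hmem
      have h1 := hπ P'
      rw [hQ] at h1
      obtain ⟨-, s, hs, hsP⟩ := hXT k F H P P' Q e (ee P') hP h1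
      exact Finset.mem_image.2 ⟨⟨s, hs⟩, Finset.mem_univ _, hsP⟩
  have hsum1 : ∑ᶠ P' : Place k F, (ee P' : ℤ) * a (π P') = O.card * e := by
    rw [finsum_congr hval, finsum_eq_sum_of_support_subset (s := O)]
    · rw [Finset.sum_congr rfl (fun P' hP' => if_pos hP'), Finset.sum_const, nsmul_eq_mul]
    · intro P' hP'
      by_contra hne
      exact hP' (if_neg hne)
  have hsum2 : ∑ᶠ R, a R = 1 := by
    rw [finsum_eq_single a Q (fun R hR => if_neg hR)]
    exact if_pos rfl
  rw [hsum1, hsum2, mul_one] at hS
  -- orbit and stabilizer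
  have horb : O.card * (Finset.univ.filter fun s : H => (s : F ≃ₐ[k] F) • P = P).card =
      Fintype.card H := by
    have hfin : (MulAction.orbit H P).Finite := Set.finite_range _
    have : Fintype (MulAction.orbit H P) := hfin.fintype
    have h1 := MulAction.card_orbit_mul_card_stabilizer_eq_card_group H P
    have h2 : Fintype.card (MulAction.orbit H P) = O.card := by
      rw [Fintype.card_of_subtype O]
      intro R
      rw [Finset.mem_image, MulAction.mem_orbit_iff]
      constructor
      · rintro ⟨s, -, hs⟩
        exact ⟨s, hs⟩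
      · rintro ⟨s, hs⟩
        exact ⟨s, Finset.mem_univ _, hs⟩
    have h3 : Fintype.card (MulAction.stabilizer H P) =
        (Finset.univ.filter fun s : H => (s : F ≃ₐ[k] F) • P = P).card := by
      rw [Fintype.card_of_subtype]
      intro s
      rw [Finset.mem_filter, MulAction.mem_stabilizer_iff]
      constructor
      · rintro ⟨-, hs⟩
        exact hs
      · intro hs
        exact ⟨Finset.mem_univ _, hs⟩
    rw [h2, h3] at h1
    exact h1
  have hpos : 0 < O.card := Finset.card_pos.2 ⟨P, Finset.mem_image.2
    ⟨1, Finset.mem_univ _, one_smul _ P⟩⟩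
  have h5 : O.card * e = O.card * (Finset.univ.filter fun s : H => (s : F ≃ₐ[k] F) • P = P).card := by
    rw [horb]
    exact_mod_cast hS
  exact Nat.eq_of_mul_eq_mul_left hpos h5

end

end Pool.Agent.helper53.AU
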