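import Pool.Agent.helper2.AU.SpecX

/-!
# Project au, module XT: a finite group permutes the places above a place transitively
-/

namespace Pool.Agent.helper53.AU

open scoped Classical IntermediateField
open Polynomial (aeval)

noncomputable section

theorem XT_ord_prod {k F : Type} [Field k] [Field F] [Algebra k F] (P : Place k F) {ι : Type}
    (s : Finset ι) (f : ι → F) (hf : ∀ i ∈ s, f i ≠ 0) :
    P.ord (∏ i ∈ s, f i) = ∑ i ∈ s, P.ord (f i) := by
  induction s using Finset.induction_on with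
  | empty => simp [P.ord_one]
  | insert a s ha ih =>
    rw [Finset.prod_insert ha, Finset.sum_insert ha,
      P.ord_mul _ _ (hf a (Finset.mem_insert_self a s))
        (Finset.prod_ne_zero_iff.2 fun i hi => hf i (Finset.mem_insert_of_mem hi)),
      ih fun i hi => hf i (Finset.mem_insert_of_mem hi)]

theorem XT (hQV2 : QV2_stmt) : XT_stmt := by
  intro k F _ _ _ H _ P P' Q e e' hP hP'
  have horb : ∃ s ∈ H, s • P = P' := by
    by_contra hno
    push Not at hno
    let S₁ : Finset (Place k F) := Finset.univ.image fun s : H => (s : F ≃ₐ[k] F) • P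
    let S₂ : Finset (Place k F) := Finset.univ.image fun s : H => (s : F ≃ₐ[k] F) • P'
    obtain ⟨z, hz⟩ := hQV2 k F (S₁ ∪ S₂) 1 (fun R => if R ∈ S₁ then 1 else 0)
    have hz1 : ∀ s ∈ H, (s • P).Ge 1 (z - 1) := by
      intro s hs
      have hmem : s • P ∈ S₁ := Finset.mem_image.2 ⟨⟨s, hs⟩, Finset.mem_univ _, rfl⟩
      have h1 := hz (s • P) (Finset.mem_union_left _ hmem)
      simp only [if_pos hmem] at h1
      exact h1
    have hz2 : ∀ s ∈ H, (s • P').Ge 1 z := by
      intro s hs
      have hmem : s • P' ∈ S₂ := Finset.mem_image.2 ⟨⟨s, hs⟩, Finset.mem_univ _, rfl⟩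
      have hn : s • P' ∉ S₁ := by
        intro h
        obtain ⟨t, -, ht⟩ := Finset.mem_image.1 h
        apply hno (s⁻¹ * t) (H.mul_mem (H.inv_mem hs) t.2)
        rw [mul_smul, ht, inv_smul_smul]
      have h1 := hz (s • P') (Finset.mem_union_right _ hmem)
      simp only [if_neg hn, sub_zero] at h1
      exact h1
    have hz0 : z ≠ 0 := by
      intro h
      have h1 := hz1 1 H.one_mem
      rw [one_smul, h, zero_sub] at h1
      have h2 := h1.le (by simp)
      rw [P.ord_neg_one] at h2
      omega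
    have hordz : ∀ s ∈ H, (s • P).ord z = 0 := by
      intro s hs
      have h1 := hz1 s hs
      have h2 : (s • P).Ge ((s • P).ord (1 : F) + 1) (z - 1) := by
        rw [(s • P).ord_one]; simpa using h1
      have h3 := (Place.ord_add_eq (one_ne_zero) h2).2
      rw [add_sub_cancel, (s • P).ord_one] at h3
      exact h3
    let N : F := ∏ s : H, (s : F ≃ₐ[k] F) z
    have hsz : ∀ s : H, (s : F ≃ₐ[k] F) z ≠ 0 := fun s => by simpa using hz0
    have hNfix : N ∈ IntermediateField.fixedField H := by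
      rw [IntermediateField.mem_fixedField_iff]
      intro g hg
      show g (∏ s : H, (s : F ≃ₐ[k] F) z) = ∏ s : H, (s : F ≃ₐ[k] F) z
      rw [map_prod]
      exact Fintype.prod_equiv (Equiv.mulLeft (⟨g, hg⟩ : H)) _ _ (fun s => rfl)
    have hN1 : P.ord N = 0 := by
      show P.ord (∏ s : H, (s : F ≃ₐ[k] F) z) = 0
      rw [XT_ord_prod P Finset.univ _ (fun s _ => hsz s)]
      apply Finset.sum_eq_zero
      intro s _
      have h1 := hordz (s : F ≃ₐ[k] F)⁻¹ (H.inv_mem s.2)
      exact h1
    have hN2 : 0 < P'.ord N := by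
      show 0 < P'.ord (∏ s : H, (s : F ≃ₐ[k] F) z)
      rw [XT_ord_prod P' Finset.univ _ (fun s _ => hsz s)]
      apply Finset.sum_pos
      · intro s _
        have h1 := (hz2 (s : F ≃ₐ[k] F)⁻¹ (H.inv_mem s.2)).le hz0
        have h2 : ((s : F ≃ₐ[k] F)⁻¹ • P').ord z = P'.ord ((s : F ≃ₐ[k] F) z) := rfl
        rw [h2] at h1
        omega
      · exact Finset.univ_nonempty
    have h1 := hP.2 ⟨N, hNfix⟩
    have h2 := hP'.2 ⟨N, hNfix⟩
    have h3 : Q.ord ⟨N, hNfix⟩ = 0 := by
      have h4 : (e : ℤ) * Q.ord ⟨N, hNfix⟩ = 0 := by rw [← h1]; exact hN1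
      rcases mul_eq_zero.1 h4 with h5 | h5
      · have := hP.1
        omega
      · exact h5
    rw [h3, mul_zero] at h2
    have h6 : P'.ord N = 0 := h2
    omega
  refine ⟨?_, horb⟩
  obtain ⟨s, hs, hsP⟩ := horb
  obtain ⟨u, hu0, hu⟩ := Q.exists_uniformizer
  have h1 := hP.2 u
  have h2 := hP'.2 u
  have h3 : P'.ord (u : F) = P.ord (u : F) := by
    rw [← hsP, Place.smul_ord]
    have h4 : s (u : F) = u := (IntermediateField.mem_fixedField_iff H (u : F)).1 u.2 s hs
    conv_lhs => rw [← h4]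
    rw [AlgEquiv.symm_apply_apply]
  rw [h1, h2, hu] at h3
  have h5 : (e' : ℤ) = e := by linarith
  exact_mod_cast h5.symm

end

end Pool.Agent.helper53.AU
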